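import Pool.Agent.Helper35.SHQ.Sheet

namespace SHQ

theorem lng_app (T S : Tr) : (T.app S).lang = {u | ∃ t ∈ T.lang, ∃ s ∈ S.lang, u = t ++ s} := by
  induction T with
  | nil =>
    ext u
    simp [Tr.app, Tr.lang]
  | one a T ih =>
    ext u
    simp only [Tr.app, Tr.lang, Set.mem_image, Set.mem_ofPred_eq]
    rw [ih]
    constructor
    · rintro ⟨v, ⟨t, ht, s, hs, rfl⟩, rfl⟩
      exact ⟨a :: t, ⟨t, ht, rfl⟩, s, hs, rfl⟩
    · rintro ⟨t', ⟨t, ht, rfl⟩, s, hs, rfl⟩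
      exact ⟨t ++ s, ⟨t, ht, s, hs, rfl⟩, rfl⟩
  | two c T T' ih ih' =>
    ext u
    simp only [Tr.app, Tr.lang, Set.mem_union, Set.mem_image, Set.mem_ofPred_eq]
    rw [ih, ih']
    constructor
    · rintro (⟨v, ⟨t, ht, s, hs, rfl⟩, rfl⟩ | ⟨v, ⟨t, ht, s, hs, rfl⟩, rfl⟩)
      · exact ⟨(c + 1) :: t, Or.inl ⟨t, ht, rfl⟩, s, hs, rfl⟩
      · exact ⟨(c + 2) :: t, Or.inr ⟨t, ht, rfl⟩, s, hs, rfl⟩
    · rintro ⟨t', (⟨t, ht, rfl⟩ | ⟨t, ht, rfl⟩), s, hs, rfl⟩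
      · exact Or.inl ⟨t ++ s, ⟨t, ht, s, hs, rfl⟩, rfl⟩
      · exact Or.inr ⟨t ++ s, ⟨t, ht, s, hs, rfl⟩, rfl⟩

theorem lng_assoc (T S R : Tr) : (T.app S).app R = T.app (S.app R) := by
  induction T with
  | nil => rfl
  | one a T ih => simp only [Tr.app, ih]
  | two c T T' ih ih' => simp only [Tr.app, ih, ih']

theorem lng_nil (T : Tr) : T.app .nil = T := by
  induction T with
  | nil => rfl
  | one a T ih => simp only [Tr.app, ih]
  | two c T T' ih ih' => simp only [Tr.app, ih, ih']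

theorem lng_fix (l : W) : (fix l).lang = {l} := by
  induction l with
  | nil => rfl
  | cons a l ih =>
    simp only [fix, Tr.lang, ih, Set.image_singleton]

theorem lng_ne (T : Tr) : T.lang.Nonempty := by
  induction T with
  | nil => exact ⟨[], rfl⟩
  | one a T ih =>
    obtain ⟨u, hu⟩ := ih
    exact ⟨a :: u, u, hu, rfl⟩
  | two c T T' ih ih' =>
    obtain ⟨u, hu⟩ := ih
    exact ⟨(c + 1) :: u, Or.inl ⟨u, hu, rfl⟩⟩

theorem st_LNG : ST_LNG := ⟨lng_app, lng_assoc, lng_nil, lng_fix, lng_ne⟩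

end SHQ
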